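import Pool.Agent.Helper1K1.CT.Words

/-!
# Topology and visual metrics of the boundary
-/

set_option autoImplicit false

open Set Filter Topology

namespace Pool.Agent.Helper1K1.CT

/-- the topology of pointwise convergence of the letters -/
instance : TopologicalSpace Bd := inferInstanceAs (TopologicalSpace {x : ℕ → Letter // Good x})

theorem continuous_letter (n : ℕ) : Continuous fun x : Bd => x.1 n :=
  (continuous_apply n).comp continuous_subtype_val

theorem isClosed_good : IsClosed {x : ℕ → Letter | Good x} := by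
  have : {x : ℕ → Letter | Good x} = ⋂ n, {x : ℕ → Letter | x (n + 1) ≠ bar (x n)} := by
    ext x
    simp [Good]
  rw [this]
  refine isClosed_iInter fun n => ?_
  have h1 : Continuous fun x : ℕ → Letter => (x (n + 1), x n) :=
    (continuous_apply (n + 1)).prodMk (continuous_apply n)
  exact (isClosed_discrete {p : Letter × Letter | p.1 ≠ bar p.2}).preimage h1

instance : CompactSpace Bd := by
  have : IsCompact {x : ℕ → Letter | Good x} := isClosed_good.isCompact
  exact isCompact_iff_compactSpace.1 this

instance : T2Space Bd := inferInstanceAs (T2Space {x : ℕ → Letter // Good x})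

instance : SecondCountableTopology Bd :=
  (Topology.IsEmbedding.subtypeVal (p := Good)).secondCountableTopology

/-- the points which agree with `x` in the first `n` letters -/
def Cyl (x : Bd) (n : ℕ) : Set Bd := {y | ∀ i < n, y.1 i = x.1 i}

theorem isOpen_cyl (x : Bd) (n : ℕ) : IsOpen (Cyl x n) := by
  have : Cyl x n = ⋂ i ∈ Finset.range n, (fun y : Bd => y.1 i) ⁻¹' {x.1 i} := by
    ext y
    simp [Cyl]
  rw [this]
  refine isOpen_biInter_finset fun i _ => ?_
  exact (isOpen_discrete _).preimage (continuous_letter i)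

theorem exists_cyl (x : Bd) (U : Set Bd) (hU : U ∈ 𝓝 x) : ∃ n, Cyl x n ⊆ U := by
  obtain ⟨V, hV, hVU⟩ := mem_nhds_subtype _ x U |>.1 hU
  have h1 : ∃ n, PiNat.cylinder x.1 n ⊆ V := by
    obtain ⟨s, ⟨y, n, rfl⟩, hx, hs⟩ := (PiNat.isTopologicalBasis_cylinders (fun _ : ℕ => Letter)).mem_nhds_iff.1 hV
    refine ⟨n, ?_⟩
    rw [PiNat.mem_cylinder_iff_eq.1 hx]
    exact hs
  obtain ⟨n, hn⟩ := h1
  refine ⟨n, fun y hy => hVU (hn ?_)⟩
  exact fun i hi => hy i hi

theorem continuous_perm (s : Letter) : Continuous (perm s) := by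
  refine Continuous.subtype_mk (continuous_pi fun n => ?_) _
  have h1 : Continuous fun x : Bd => (x.1 0, x.1 (n + 1), x.1 (n - 1)) :=
    (continuous_letter 0).prodMk ((continuous_letter (n + 1)).prodMk (continuous_letter (n - 1)))
  have h2 : (fun x : Bd => act s x.1 n) =
      (fun p : Letter × Letter × Letter => if p.1 = bar s then p.2.1 else if n = 0 then s else p.2.2) ∘
        fun x : Bd => (x.1 0, x.1 (n + 1), x.1 (n - 1)) := by
    funext x
    simp only [Function.comp]
    unfold act
    split_ifs with h0 hn
    · rfl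
    · subst hn
      rfl
    · obtain ⟨m, rfl⟩ := Nat.exists_eq_succ_of_ne_zero hn
      rfl
  rw [h2]
  exact continuous_of_discreteTopology.comp h1

theorem continuous_smul_bd (g : FreeGroup (Fin 3)) : Continuous fun x : Bd => g • x := by
  induction g using FreeGroup.induction_on with
  | C1 =>
    have : (fun x : Bd => (1 : FreeGroup (Fin 3)) • x) = id := by
      funext x
      exact one_smul _ x
    rw [this]
    exact continuous_id
  | of i => exact continuous_perm (i, true)
  | inv_of i _ =>
    have : (fun x : Bd => (FreeGroup.of i : FreeGroup (Fin 3))⁻¹ • x) = perm (i, false) := by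
      funext x
      change (FreeGroup.lift fun i => perm (i, true)) (FreeGroup.of i)⁻¹ x = _
      rw [map_inv, FreeGroup.lift_apply_of, perm_inv]
      rfl
    rw [this]
    exact continuous_perm (i, false)
  | mul g h hg hh =>
    have : (fun x : Bd => (g * h) • x) = (fun x : Bd => g • x) ∘ fun x : Bd => h • x := by
      funext x
      exact mul_smul g h x
    rw [this]
    exact hg.comp hh

open scoped Classical in
/-- The visual metric with parameter `a` of the boundary of the Cayley tree: `a ^ (-(x|y))`, where `(x|y)`, the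
Gromov product of `x ≠ y` with respect to the identity, is the length of the longest common prefix. -/
noncomputable def vdist (a : ℝ) (x y : Bd) : ℝ := if x = y then 0 else (a⁻¹) ^ PiNat.firstDiff x.1 y.1

theorem vdist_pos {a : ℝ} (ha : 1 < a) {x y : Bd} (h : x ≠ y) : 0 < vdist a x y := by
  unfold vdist
  rw [if_neg h]
  have : 0 < a⁻¹ := by positivity
  positivity

/-- the visual metric -/
@[instance_reducible]
noncomputable def visual (a : ℝ) (ha : 1 < a) : MetricSpace Bd where
  dist := vdist a
  dist_self x := by unfold vdist; rw [if_pos rfl]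
  dist_comm x y := by
    unfold vdist
    by_cases h : x = y
    · rw [if_pos h, if_pos h.symm]
    · rw [if_neg h, if_neg (Ne.symm h), PiNat.firstDiff_comm]
  dist_triangle x y z := by
    have ha0 : 0 < a⁻¹ := by positivity
    have ha1 : a⁻¹ ≤ 1 := inv_le_one_of_one_le₀ ha.le
    have hnn : ∀ u v : Bd, 0 ≤ vdist a u v := by
      intro u v
      unfold vdist
      split_ifs
      · exact le_rfl
      · positivity
    by_cases hxz : x = z
    · have : vdist a x z = 0 := if_pos hxz
      rw [this]
      exact add_nonneg (hnn _ _) (hnn _ _)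
    by_cases hxy : x = y
    · subst hxy
      have : vdist a x x = 0 := if_pos rfl
      rw [this, zero_add]
    by_cases hyz : y = z
    · subst hyz
      have : vdist a y y = 0 := if_pos rfl
      rw [this, add_zero]
    have h1 : min (PiNat.firstDiff x.1 y.1) (PiNat.firstDiff y.1 z.1) ≤ PiNat.firstDiff x.1 z.1 :=
      PiNat.min_firstDiff_le x.1 y.1 z.1 (fun h => hxz (Subtype.ext h))
    have e1 : vdist a x z = (a⁻¹) ^ PiNat.firstDiff x.1 z.1 := if_neg hxz
    have e2 : vdist a x y = (a⁻¹) ^ PiNat.firstDiff x.1 y.1 := if_neg hxy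
    have e3 : vdist a y z = (a⁻¹) ^ PiNat.firstDiff y.1 z.1 := if_neg hyz
    have h2 : (a⁻¹) ^ PiNat.firstDiff x.1 z.1 ≤ (a⁻¹) ^ min (PiNat.firstDiff x.1 y.1) (PiNat.firstDiff y.1 z.1) :=
      pow_le_pow_of_le_one ha0.le ha1 h1
    rw [e1, e2, e3]
    rcases min_choice (PiNat.firstDiff x.1 y.1) (PiNat.firstDiff y.1 z.1) with h | h
    · rw [h] at h2
      have : 0 ≤ (a⁻¹) ^ PiNat.firstDiff y.1 z.1 := by positivity
      linarith
    · rw [h] at h2
      have : 0 ≤ (a⁻¹) ^ PiNat.firstDiff x.1 y.1 := by positivity
      linarith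
  eq_of_dist_eq_zero := by
    intro x y h
    by_contra hne
    exact absurd h (vdist_pos ha hne).ne'

/-- the visual metrics define the topology -/
theorem visual_topology (a : ℝ) (ha : 1 < a) :
    (visual a ha).toPseudoMetricSpace.toUniformSpace.toTopologicalSpace = (inferInstance : TopologicalSpace Bd) := by
  have ha0 : 0 < a⁻¹ := by positivity
  have ha1 : a⁻¹ < 1 := inv_lt_one_of_one_lt₀ ha
  refine TopologicalSpace.ext_nhds fun x => ?_
  ext U
  rw [@Metric.mem_nhds_iff Bd (visual a ha).toPseudoMetricSpace]
  constructor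
  · rintro ⟨ε, hε, hU⟩
    obtain ⟨n, hn⟩ := exists_pow_lt_of_lt_one hε ha1
    refine mem_of_superset ((isOpen_cyl x n).mem_nhds fun i _ => rfl) fun y hy => hU ?_
    change vdist a y x < ε
    unfold vdist
    split_ifs with h
    · exact hε
    · have h1 : n ≤ PiNat.firstDiff y.1 x.1 := by
        by_contra hc
        rw [not_le] at hc
        exact PiNat.apply_firstDiff_ne (fun hh => h (Subtype.ext hh)) (hy _ hc)
      exact (pow_le_pow_of_le_one ha0.le ha1.le h1).trans_lt hn
  · intro hU
    obtain ⟨n, hn⟩ := exists_cyl x U hU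
    refine ⟨(a⁻¹) ^ n, by positivity, fun y hy => hn ?_⟩
    have hy' : vdist a y x < (a⁻¹) ^ n := hy
    intro i hi
    by_cases h : y = x
    · rw [h]
    · unfold vdist at hy'
      rw [if_neg h] at hy'
      have h1 : n ≤ PiNat.firstDiff y.1 x.1 := by
        by_contra hc
        rw [not_le] at hc
        have := pow_le_pow_of_le_one ha0.le ha1.le hc.le
        linarith
      exact PiNat.apply_eq_of_lt_firstDiff (lt_of_lt_of_le hi h1)

end Pool.Agent.Helper1K1.CT
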