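import Pool.Agent.Helper1K1.CT.Z

/-!
# The action on the quotient is a convergence action
-/

set_option autoImplicit false

open Set Filter Topology

namespace Pool.Agent.Helper1K1.CT

/-- the finite words whose initial parts are initial parts of `ξ` -/
def Conv (w : ℕ → List Letter) (ξ : Bd) : Prop :=
  ∀ M, ∀ᶠ n in atTop, M ≤ (w n).length ∧ Pre ((w n).take M) ξ.1

theorem Conv.comp {w : ℕ → List Letter} {ξ : Bd} (h : Conv w ξ) {φ : ℕ → ℕ} (hφ : StrictMono φ) :
    Conv (fun n => w (φ n)) ξ := fun M => hφ.tendsto_atTop.eventually (h M)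

theorem pre_take {w : List Letter} {x : ℕ → Letter} (h : Pre w x) (M : ℕ) : Pre (w.take M) x := by
  rw [← List.take_append_drop M w, pre_append] at h
  exact h.1

theorem pre_unique {w : List Letter} {x y : ℕ → Letter} (hx : Pre w x) (hy : Pre w y) (i : ℕ) (hi : i < w.length) :
    x i = y i := by
  rw [pre_iff] at hx hy
  rw [hx i hi, hy i hi]

theorem pre_of_agree {w : List Letter} {x y : ℕ → Letter} (hx : Pre w x) (h : ∀ i < w.length, y i = x i) :
    Pre w y := by
  rw [pre_iff] at hx ⊢
  intro i hi
  rw [h i hi, hx i hi]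

/-- the dynamics of a sequence of group elements on the boundary -/
theorem dynamics {w : ℕ → List Letter} {ξ η : Bd} (hr : ∀ n, Red (w n)) (h1 : Conv w ξ)
    (h2 : Conv (fun n => iw (w n)) η) (m M : ℕ) :
    ∀ᶠ n in atTop, ∀ x : Bd, x ∉ Cyl η m → FreeGroup.mk (w n) • x ∈ Cyl ξ M := by
  filter_upwards [h1 M, h1 (M + m), h2 m] with n hn1 hn2 hn3 x hx
  have hm : m ≠ 0 := by
    rintro rfl
    exact hx fun i hi => absurd hi (by omega)
  -- split the word
  set u := (w n).take ((w n).length - m) with hu
  set v := (w n).drop ((w n).length - m) with hv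
  have huv : w n = u ++ v := (List.take_append_drop _ _).symm
  have hvl : v.length = m := by
    rw [hv, List.length_drop]
    omega
  have hul : u.length = (w n).length - m := by
    rw [hu, List.length_take]
    omega
  have hiv : iw (w n) = iw v ++ iw u := by
    rw [huv]
    exact FreeGroup.invRev_append
  have hpv : Pre (iw v) η.1 := by
    have := hn3.2
    rw [hiv] at this
    have e : (iw v ++ iw u).take m = iw v := by
      rw [List.take_append_of_le_length (by rw [iw_length, hvl]), List.take_of_length_le (by rw [iw_length, hvl])]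
    rwa [e] at this
  have hnp : ¬ Pre (iw v) x.1 := by
    intro hc
    apply hx
    intro i hi
    exact pre_unique hc hpv i (by rw [iw_length, hvl]; exact hi)
  obtain ⟨s, t, hst⟩ : ∃ s t, v = s :: t := by
    cases hv' : v with
    | nil => rw [hv'] at hvl; exact absurd hvl.symm hm
    | cons s t => exact ⟨s, t, rfl⟩
  rw [hst] at hnp huv
  have hred : Red (u ++ s :: t) := by
    rw [← huv]
    exact hr n
  have key := (actW_pre u s t x.1 hred hnp).1
  rw [← huv, ← smul_mk] at key
  intro i hi
  have hk1 : Pre (u.take M) (FreeGroup.mk (w n) • x).1 := pre_take key M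
  have hk2 : Pre (u.take M) ξ.1 := by
    have := hn1.2
    rw [huv, List.take_append_of_le_length (by rw [hul]; omega)] at this
    exact this
  exact pre_unique hk1 hk2 i (by rw [List.length_take, hul]; omega)

/-- the sequence `h` of group elements converges to the constant map `c`, locally uniformly away from `b` -/
def Attr {H Z : Type} [Group H] [TopologicalSpace Z] [MulAction H Z] (h : ℕ → H) (b c : Z) : Prop :=
  ∀ U ∈ 𝓝 c, ∀ K : Set Z, IsCompact K → b ∉ K → ∀ᶠ n in atTop, ∀ z ∈ K, h n • z ∈ U

theorem attr_proj {w : ℕ → List Letter} {ξ η : Bd} (hr : ∀ n, Red (w n)) (h1 : Conv w ξ)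
    (h2 : Conv (fun n => iw (w n)) η) : Attr (fun n => FreeGroup.mk (w n)) (proj η) (proj ξ) := by
  intro U hU K hK hb
  have h3 : proj ⁻¹' U ∈ 𝓝 ξ := continuous_proj.continuousAt hU
  obtain ⟨M, hM⟩ := exists_cyl ξ _ h3
  have h4 : (proj ⁻¹' K)ᶜ ∈ 𝓝 η := by
    have : IsOpen (proj ⁻¹' K)ᶜ := (hK.isClosed.preimage continuous_proj).isOpen_compl
    exact this.mem_nhds hb
  obtain ⟨m, hm⟩ := exists_cyl η _ h4
  filter_upwards [dynamics hr h1 h2 m M] with n hn z hz
  obtain ⟨x, rfl⟩ := surjective_proj z
  rw [← proj_smul]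
  exact hM (hn x fun hc => hm hc hz)

/-- extension of a finite reduced word -/
def ext : List Letter → ℕ → Letter
  | [] => fun _ => (0, true)
  | [s] => fun _ => s
  | s :: r :: t => cn s (ext (r :: t))

theorem ext_zero (s : Letter) (t : List Letter) : ext (s :: t) 0 = s := by
  cases t <;> rfl

theorem good_const (s : Letter) : Good fun _ => s := fun _ => (bar_ne s).symm

theorem good_ext (w : List Letter) (h : Red w) : Good (ext w) := by
  induction w with
  | nil => exact good_const _
  | cons s t ih =>
    cases t with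
    | nil => exact good_const _
    | cons r t =>
      rw [red_cons] at h
      refine good_cn (ih h.2) ?_
      rw [ext_zero]
      exact h.1

theorem pre_ext (w : List Letter) : Pre w (ext w) := by
  induction w with
  | nil => trivial
  | cons s t ih =>
    cases t with
    | nil => exact ⟨rfl, trivial⟩
    | cons r t => exact ⟨rfl, ih⟩

theorem conv_of_ext {w : ℕ → List Letter} (hr : ∀ n, Red (w n)) (hl : ∀ M, ∀ᶠ n in atTop, M ≤ (w n).length) {ξ : Bd}
    (h : Tendsto (fun n => (⟨ext (w n), good_ext _ (hr n)⟩ : Bd)) atTop (𝓝 ξ)) : Conv w ξ := by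
  intro M
  have h1 := h ((isOpen_cyl ξ M).mem_nhds fun i _ => rfl)
  filter_upwards [hl M, h1] with n hn1 hn2
  refine ⟨hn1, pre_of_agree (pre_take (pre_ext (w n)) M) fun i hi => ?_⟩
  rw [List.length_take] at hi
  exact (hn2 i (by omega)).symm

theorem red_iw {w : List Letter} (h : Red w) : Red (iw w) := by
  have h1 : FreeGroup.reduce w = w := h.reduce_eq
  have h2 : iw w = (FreeGroup.mk w)⁻¹.toWord := by
    rw [FreeGroup.toWord_inv, FreeGroup.toWord_mk, h1]
  rw [h2]
  exact FreeGroup.isReduced_toWord

theorem length_tendsto {h : ℕ → FreeGroup (Fin 3)} (hh : Function.Injective h) (M : ℕ) :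
    ∀ᶠ n in atTop, M ≤ (h n).toWord.length := by
  have h1 : ({n | ¬ M ≤ (h n).toWord.length} : Set ℕ).Finite := by
    have h2 : ({l : List Letter | l.length < M} : Set (List Letter)).Finite := List.finite_length_lt Letter M
    have h3 := h2.preimage ((FreeGroup.toWord_injective.comp hh).injOn)
    refine h3.subset fun n hn => ?_
    have hn' : ¬ M ≤ (h n).toWord.length := hn
    change (h n).toWord.length < M
    omega
  have h4 := h1.compl_mem_cofinite
  rw [Nat.cofinite_eq_atTop] at h4
  filter_upwards [h4] with n hn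
  by_contra hc
  exact hn hc

/-- the action on the quotient is a convergence action -/
theorem convergence (h : ℕ → FreeGroup (Fin 3)) (hh : Function.Injective h) :
    ∃ φ : ℕ → ℕ, StrictMono φ ∧ ∃ b c : Z, Attr (h ∘ φ) b c := by
  have hr : ∀ n, Red (h n).toWord := fun n => FreeGroup.isReduced_toWord
  have hr' : ∀ n, Red (iw (h n).toWord) := fun n => red_iw (hr n)
  obtain ⟨⟨ξ, η⟩, φ, hφ, hlim⟩ := CompactSpace.tendsto_subseq (X := Bd × Bd)
    (fun n => ((⟨ext (h n).toWord, good_ext _ (hr n)⟩ : Bd), (⟨ext (iw (h n).toWord), good_ext _ (hr' n)⟩ : Bd)))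
  have hl : ∀ M, ∀ᶠ n in atTop, M ≤ (h (φ n)).toWord.length := fun M =>
    hφ.tendsto_atTop.eventually (length_tendsto hh M)
  have h1 : Conv (fun n => (h (φ n)).toWord) ξ := by
    refine conv_of_ext (fun n => hr (φ n)) hl ?_
    exact (continuous_fst.tendsto _).comp hlim
  have h2 : Conv (fun n => iw (h (φ n)).toWord) η := by
    refine conv_of_ext (fun n => hr' (φ n)) (fun M => ?_) ?_
    · simpa only [iw_length] using hl M
    · exact (continuous_snd.tendsto _).comp hlim
  refine ⟨φ, hφ, proj η, proj ξ, ?_⟩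
  have h3 := attr_proj (fun n => hr (φ n)) h1 h2
  simp only [FreeGroup.mk_toWord] at h3
  exact h3

/-- the constant word -/
def cst (s : Letter) : Bd := ⟨fun _ => s, good_const s⟩

theorem red_replicate (n : ℕ) (s : Letter) : Red (List.replicate n s) := by
  induction n with
  | zero => exact FreeGroup.IsReduced.nil
  | succ n ih =>
    cases n with
    | zero => exact FreeGroup.IsReduced.singleton
    | succ n =>
      rw [List.replicate_succ, List.replicate_succ, red_cons]
      exact ⟨(bar_ne s).symm, ih⟩

theorem iw_replicate (n : ℕ) (s : Letter) : iw (List.replicate n s) = List.replicate n (bar s) := by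
  induction n with
  | zero => rfl
  | succ n ih =>
    rw [List.replicate_succ, iw_cons, ih, List.replicate_succ']

theorem pre_replicate (n : ℕ) (s : Letter) : Pre (List.replicate n s) fun _ => s := by
  induction n with
  | zero => trivial
  | succ n ih =>
    rw [List.replicate_succ]
    exact ⟨rfl, ih⟩

theorem conv_replicate (s : Letter) : Conv (fun n => List.replicate n s) (cst s) := by
  intro M
  filter_upwards [eventually_ge_atTop M] with n hn
  refine ⟨by rw [List.length_replicate]; exact hn, ?_⟩
  rw [List.take_replicate]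
  exact pre_replicate _ _

theorem inj_replicate (s : Letter) : Function.Injective fun n => (FreeGroup.mk (List.replicate n s) : FreeGroup (Fin 3)) := by
  intro m n hmn
  have h1 := congrArg FreeGroup.toWord hmn
  simp only [FreeGroup.toWord_mk] at h1
  rw [(red_replicate m s).reduce_eq, (red_replicate n s).reduce_eq] at h1
  have := congrArg List.length h1
  simpa using this

theorem attr_replicate (s : Letter) :
    Attr (fun n => (FreeGroup.mk (List.replicate n s) : FreeGroup (Fin 3))) (proj (cst (bar s))) (proj (cst s)) := by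
  refine attr_proj (fun n => red_replicate n s) (conv_replicate s) ?_
  simp only [iw_replicate]
  exact conv_replicate (bar s)

/-- the words without the third generator -/
def S : Set Bd := {x | ∀ n, (x.1 n).1 ≠ 2}

theorem not_pre_of_mem_S {x : Bd} (hx : x ∈ S) {w : List Letter} (hw : EndC w) : ¬ Pre w x.1 := by
  obtain ⟨u, b, rfl⟩ := hw
  rw [pre_append]
  rintro ⟨_, h, _⟩
  exact hx _ (congrArg Prod.fst h)

theorem proj_S {x y : Bd} (hx : x ∈ S) (hy : y ∈ S) : proj x = proj y := by
  rw [proj_eq_iff]
  intro w hw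
  exact ⟨fun h => absurd h (not_pre_of_mem_S hx hw), fun h => absurd h (not_pre_of_mem_S hy hw)⟩

theorem cst_mem_S {s : Letter} (hs : s.1 ≠ 2) : cst s ∈ S := fun _ => hs

/-- a point whose letters avoid the third generator projects to a point which is not conical -/
theorem not_conical {x : Bd} (hx : x ∈ S) (h : ℕ → FreeGroup (Fin 3)) (b c : Z) (hbc : b ≠ c)
    (h1 : Tendsto (fun n => h n • proj x) atTop (𝓝 b))
    (h2 : ∀ y, y ≠ proj x → Tendsto (fun n => h n • y) atTop (𝓝 c)) : False := by
  -- a wall which separates `b` and `c`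
  obtain ⟨w, hw⟩ : ∃ w : Wall, b.1 w ≠ c.1 w := by
    by_contra hcon
    push Not at hcon
    exact hbc (Subtype.ext (funext hcon))
  have hcont : Continuous fun z : Z => z.1 w := (continuous_apply w).comp continuous_subtype_val
  have key : ∀ (y z : Z), Tendsto (fun n => h n • y) atTop (𝓝 z) → ∀ᶠ n in atTop, (h n • y).1 w = z.1 w := by
    intro y z hyz
    have h3 : Tendsto (fun n => (h n • y).1 w) atTop (𝓝 (z.1 w)) := (hcont.tendsto z).comp hyz
    rw [nhds_discrete, tendsto_pure] at h3
    exact h3
  have hne : ∀ s : Letter, s.1 = 2 → proj (cst s) ≠ proj x := by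
    intro s hs heq
    rw [proj_eq_iff] at heq
    have hE : EndC [s] := ⟨[], s.2, by rw [← hs]; rfl⟩
    exact not_pre_of_mem_S hx hE ((heq [s] hE).1 ⟨rfl, trivial⟩)
  obtain ⟨n, hn1, hn2, hn3⟩ := ((key _ _ h1).and ((key _ _ (h2 _ (hne (2, true) rfl))).and
    (key _ _ (h2 _ (hne (2, false) rfl))))).exists
  rw [← proj_smul] at hn1 hn2 hn3
  have hH : Half fun x => Pre w.1 x.1 := ⟨w.1, w.2, Or.inl fun x => Iff.rfl⟩
  have hs1 : ¬ (Pre w.1 (h n • x).1 ↔ Pre w.1 (h n • cst (2, true)).1) := by
    intro hc
    rw [← side_eq_iff] at hc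
    exact hw (hn1.symm.trans (hc.trans hn2))
  have hs2 : ¬ (Pre w.1 (h n • x).1 ↔ Pre w.1 (h n • cst (2, false)).1) := by
    intro hc
    rw [← side_eq_iff] at hc
    exact hw (hn1.symm.trans (hc.trans hn3))
  obtain ⟨w', hw', hh⟩ := half_smul (h n) hH
  have hx' : ¬ Pre w' x.1 := not_pre_of_mem_S hx hw'
  have hp1 : Pre w' (cst (2, true)).1 := by
    by_contra hc
    rcases hh with hh | hh
    · exact hs1 ((hh x).trans (Iff.trans ⟨fun h => absurd h hx', fun h => absurd h hc⟩ (hh _).symm))
    · exact hs1 ((hh x).trans (Iff.trans ⟨fun _ => hc, fun _ => hx'⟩ (hh _).symm))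
  have hp2 : Pre w' (cst (2, false)).1 := by
    by_contra hc
    rcases hh with hh | hh
    · exact hs2 ((hh x).trans (Iff.trans ⟨fun h => absurd h hx', fun h => absurd h hc⟩ (hh _).symm))
    · exact hs2 ((hh x).trans (Iff.trans ⟨fun _ => hc, fun _ => hx'⟩ (hh _).symm))
  have hlen : 0 < w'.length := by
    obtain ⟨u, b, rfl⟩ := hw'
    simp
  have := pre_unique hp1 hp2 0 hlen
  have h5 : ((2 : Fin 3), true) = ((2 : Fin 3), false) := this
  simp at h5

end Pool.Agent.Helper1K1.CT
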