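import Pool.Agent.Helper1K1.CT.Conv

/-!
# The Hausdorff dimension of the boundary of `⟨a, b⟩`
-/

set_option autoImplicit false

open Set Filter Topology

namespace Pool.Agent.Helper1K1.CT

open scoped Classical in
/-- the binary digits of a boundary point -/
noncomputable def dig (x : Bd) : ℕ → Fin 2 := fun n => if x.1 n = (1, true) then 1 else 0

/-- the real number with these binary digits -/
noncomputable def num (x : Bd) : ℝ := Real.ofDigits (dig x)

theorem num_sub (x y : Bd) : |num x - num y| ≤ ((2 : ℝ) ^ PiNat.firstDiff x.1 y.1)⁻¹ := by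
  have h1 := Real.abs_ofDigits_sub_ofDigits_le (b := 2) (x := dig x) (y := dig y)
    (n := PiNat.firstDiff x.1 y.1) (fun i hi => by
      unfold dig
      rw [PiNat.apply_eq_of_lt_firstDiff hi])
  exact h1

theorem good_of_pos {x : ℕ → Letter} (h : ∀ n, (x n).2 = true) : Good x := by
  intro n hn
  have := congrArg Prod.snd hn
  rw [h] at this
  simp [bar, h] at this

theorem num_image : Ico (0 : ℝ) 1 ⊆ num '' S := by
  intro t ht
  set x : ℕ → Letter := fun n => if Real.digits t 2 n = 1 then (1, true) else (0, true) with hx
  have hg : Good x := good_of_pos fun n => by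
    rw [hx]
    dsimp only
    split_ifs <;> rfl
  refine ⟨⟨x, hg⟩, ?_, ?_⟩
  · intro n
    change (x n).1 ≠ 2
    rw [hx]
    dsimp only
    split_ifs
    · decide
    · decide
  · have : dig ⟨x, hg⟩ = Real.digits t 2 := by
      funext n
      change (if x n = (1, true) then (1 : Fin 2) else 0) = _
      by_cases h : Real.digits t 2 n = 1
      · have h1 : x n = (1, true) := if_pos h
        rw [if_pos h1, h]
      · have h1 : x n = (0, true) := if_neg h
        rw [h1, if_neg (by decide)]
        generalize Real.digits t 2 n = d at h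
        fin_cases d
        · rfl
        · exact absurd rfl h
    unfold num
    rw [this]
    exact Real.ofDigits_digits (by norm_num) ht

theorem rpow_key (a : ℝ) (ha : 1 < a) (n : ℕ) :
    ((a⁻¹) ^ n) ^ (Real.log 2 / Real.log a) = ((2 : ℝ) ^ n)⁻¹ := by
  have hla : 0 < Real.log a := Real.log_pos ha
  have ha0 : 0 < a := by linarith
  have h1 : 0 < (a⁻¹) ^ n := by positivity
  have h2 : 0 < ((2 : ℝ) ^ n)⁻¹ := by positivity
  rw [Real.rpow_def_of_pos h1, Real.log_pow, Real.log_inv]
  rw [← Real.exp_log h2, Real.log_inv, Real.log_pow]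
  congr 1
  field_simp

/-- the boundary of `⟨a, b⟩` has positive Hausdorff dimension -/
theorem dimH_S_pos (a : ℝ) (ha : 1 < a) :
    0 < @dimH Bd (@MetricSpace.toEMetricSpace Bd (visual a ha)) S := by
  let _ := visual a ha
  have hla : 0 < Real.log a := Real.log_pos ha
  have hr : 0 < Real.log 2 / Real.log a := div_pos (Real.log_pos (by norm_num)) hla
  set r : NNReal := ⟨Real.log 2 / Real.log a, hr.le⟩ with hrdef
  have hr0 : 0 < r := hr
  have hH : HolderOnWith 1 r num S := by
    intro x _ y _
    by_cases hxy : x = y
    · subst hxy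
      simp
    · have ha0 : 0 < a⁻¹ := by positivity
      have e1 : edist x y = ENNReal.ofReal ((a⁻¹) ^ PiNat.firstDiff x.1 y.1) := by
        rw [edist_dist]
        congr 1
        exact if_neg hxy
      rw [e1, edist_dist, Real.dist_eq, ENNReal.coe_one, one_mul,
        ENNReal.ofReal_rpow_of_pos (by positivity)]
      refine ENNReal.ofReal_le_ofReal ?_
      refine (num_sub x y).trans_eq ?_
      exact (rpow_key a ha _).symm
  have h1 := hH.dimH_image_le hr0
  have h2 : dimH (num '' S) = 1 := by
    have h3 : (interior (num '' S)).Nonempty := by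
      refine ⟨1 / 2, ?_⟩
      rw [mem_interior_iff_mem_nhds]
      refine mem_of_superset (Ico_mem_nhds (by norm_num) (by norm_num)) num_image
    rw [Real.dimH_of_nonempty_interior h3]
    simp
  rw [h2] at h1
  by_contra hcon
  rw [not_lt, nonpos_iff_eq_zero] at hcon
  rw [hcon, ENNReal.zero_div] at h1
  simp at h1

end Pool.Agent.Helper1K1.CT
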