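import Pool.Agent.Helper1K1.CT.Dim

/-!
# Gromov products in the Cayley tree, visual metrics
-/

set_option autoImplicit false

open Set Filter Topology

namespace Pool.Agent.Helper1K1.CT

/-- the first `n` letters -/
def pfx (x : ℕ → Letter) (n : ℕ) : List Letter := (List.range n).map x

/-- the `n`-th vertex of the geodesic ray from `1` to `x` in the Cayley tree of the free group -/
def vtx (x : Bd) (n : ℕ) : FreeGroup (Fin 3) := FreeGroup.mk (pfx x.1 n)

/-- the Gromov product, with respect to `1`, of two elements of the free group (with its word metric) -/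
noncomputable def gprod (g h : FreeGroup (Fin 3)) : ℝ := ((g.norm : ℝ) + h.norm - (g⁻¹ * h).norm) / 2

/-- the Gromov product, with respect to `1`, of two boundary points -/
noncomputable def gromov (x y : Bd) : ℝ := liminf (fun n => gprod (vtx x n) (vtx y n)) atTop

/-- the metric is a visual metric with parameter `a` -/
def IsVisual (a : ℝ) (m : MetricSpace Bd) : Prop :=
  ∃ C : ℝ, 1 ≤ C ∧ ∀ x y : Bd, x ≠ y →
    C⁻¹ * a ^ (-gromov x y) ≤ m.dist x y ∧ m.dist x y ≤ C * a ^ (-gromov x y)

theorem pfx_length (x : ℕ → Letter) (n : ℕ) : (pfx x n).length = n := by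
  unfold pfx
  rw [List.length_map, List.length_range]

theorem pfx_succ (x : ℕ → Letter) (n : ℕ) : pfx x (n + 1) = x 0 :: pfx (tl x) n := by
  unfold pfx
  rw [List.range_succ_eq_map, List.map_cons, List.map_map]
  rfl

theorem pfx_add (x : ℕ → Letter) (d k : ℕ) : pfx x (d + k) = pfx x d ++ pfx (fun i => x (d + i)) k := by
  unfold pfx
  rw [List.range_add, List.map_append, List.map_map]
  rfl

theorem red_pfx {x : ℕ → Letter} (h : Good x) (n : ℕ) : Red (pfx x n) := by
  induction n generalizing x with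
  | zero => exact FreeGroup.IsReduced.nil
  | succ n ih =>
    cases n with
    | zero => exact FreeGroup.IsReduced.singleton
    | succ n =>
      have h1 := ih h.tl
      rw [pfx_succ] at h1
      rw [pfx_succ, pfx_succ, red_cons]
      exact ⟨h 0, h1⟩

theorem norm_mk_red {w : List Letter} (h : Red w) : (FreeGroup.mk w : FreeGroup (Fin 3)).norm = w.length := by
  unfold FreeGroup.norm
  rw [FreeGroup.toWord_mk, FreeGroup.IsReduced.reduce_eq h]

theorem norm_vtx (x : Bd) (n : ℕ) : (vtx x n).norm = n := by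
  unfold vtx
  rw [norm_mk_red (red_pfx x.2 n), pfx_length]

theorem good_shift {x : ℕ → Letter} (h : Good x) (d : ℕ) : Good fun i => x (d + i) := fun n => h (d + n)

theorem norm_diff {x y : ℕ → Letter} (hx : Good x) (hy : Good y) (h : x 0 ≠ y 0) (k : ℕ) :
    ((FreeGroup.mk (pfx x k) : FreeGroup (Fin 3))⁻¹ * FreeGroup.mk (pfx y k)).norm = 2 * k := by
  rw [FreeGroup.inv_mk, FreeGroup.mul_mk]
  have hr : Red (iw (pfx x k) ++ pfx y k) := by
    cases k with
    | zero => exact FreeGroup.IsReduced.nil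
    | succ k =>
      have h1 := red_iw (red_pfx hx (k + 1))
      have h2 := red_pfx hy (k + 1)
      unfold Red FreeGroup.IsReduced at *
      rw [List.isChain_append]
      refine ⟨h1, h2, ?_⟩
      intro a ha b hb
      rw [pfx_succ, iw_cons] at ha
      rw [pfx_succ] at hb
      simp only [List.getLast?_append, List.getLast?_singleton, Option.some_or, Option.mem_def,
        Option.some.injEq, List.head?_cons] at ha hb
      intro hab
      rw [← ha, ← hb] at hab ⊢
      have h3 : (x 0).1 = (y 0).1 := hab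
      have h4 : (x 0).2 ≠ (y 0).2 := fun hc => h (Prod.ext h3 hc)
      change (!(x 0).2) = (y 0).2
      cases h5 : (x 0).2 <;> cases h6 : (y 0).2 <;> simp_all
  have : (FreeGroup.mk (iw (pfx x k) ++ pfx y k) : FreeGroup (Fin 3)).norm = 2 * k := by
    rw [norm_mk_red hr, List.length_append, iw_length, pfx_length, pfx_length]
    omega
  exact this

theorem gprod_vtx {x y : Bd} (h : x ≠ y) {n : ℕ} (hn : PiNat.firstDiff x.1 y.1 ≤ n) :
    gprod (vtx x n) (vtx y n) = PiNat.firstDiff x.1 y.1 := by
  obtain ⟨k, rfl⟩ := Nat.exists_eq_add_of_le hn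
  set d := PiNat.firstDiff x.1 y.1 with hd
  have hne : x.1 ≠ y.1 := fun hh => h (Subtype.ext hh)
  have e1 : vtx x (d + k) = FreeGroup.mk (pfx x.1 d) * FreeGroup.mk (pfx (fun i => x.1 (d + i)) k) := by
    unfold vtx
    rw [pfx_add, FreeGroup.mul_mk]
  have e2 : vtx y (d + k) = FreeGroup.mk (pfx x.1 d) * FreeGroup.mk (pfx (fun i => y.1 (d + i)) k) := by
    unfold vtx
    rw [pfx_add, FreeGroup.mul_mk]
    congr 2
    unfold pfx
    refine List.map_congr_left fun i hi => ?_
    rw [List.mem_range] at hi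
    exact (PiNat.apply_eq_of_lt_firstDiff hi).symm
  have e3 : (vtx x (d + k))⁻¹ * vtx y (d + k) =
      (FreeGroup.mk (pfx (fun i => x.1 (d + i)) k))⁻¹ * FreeGroup.mk (pfx (fun i => y.1 (d + i)) k) := by
    rw [e1, e2]
    group
  have e4 := norm_diff (good_shift x.2 d) (good_shift y.2 d) (PiNat.apply_firstDiff_ne hne) k
  unfold gprod
  rw [e3, e4, norm_vtx, norm_vtx]
  push_cast
  ring

theorem gromov_eq {x y : Bd} (h : x ≠ y) : gromov x y = PiNat.firstDiff x.1 y.1 := by
  unfold gromov
  refine Tendsto.liminf_eq ?_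
  refine tendsto_const_nhds.congr' ?_
  filter_upwards [eventually_ge_atTop (PiNat.firstDiff x.1 y.1)] with n hn
  exact (gprod_vtx h hn).symm

theorem rpow_neg_gromov {a : ℝ} (ha : 1 < a) {x y : Bd} (h : x ≠ y) :
    a ^ (-gromov x y) = (a⁻¹) ^ PiNat.firstDiff x.1 y.1 := by
  have ha0 : 0 < a := by linarith
  rw [gromov_eq h, Real.rpow_neg ha0.le, Real.rpow_natCast, inv_pow]

/-- the visual metric is visual -/
theorem isVisual_visual (a : ℝ) (ha : 1 < a) : IsVisual a (visual a ha) := by
  refine ⟨1, le_rfl, fun x y h => ?_⟩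
  have e : (visual a ha).dist x y = (a⁻¹) ^ PiNat.firstDiff x.1 y.1 := if_neg h
  rw [rpow_neg_gromov ha h, e]
  constructor <;> simp

/-- every visual metric defines the topology -/
theorem IsVisual.topology {a : ℝ} (ha : 1 < a) {m : MetricSpace Bd} (hm : IsVisual a m) :
    m.toPseudoMetricSpace.toUniformSpace.toTopologicalSpace = (inferInstance : TopologicalSpace Bd) := by
  obtain ⟨C, hC, hm⟩ := hm
  have ha0 : 0 < a⁻¹ := by positivity
  have ha1 : a⁻¹ < 1 := inv_lt_one_of_one_lt₀ ha
  have hC0 : 0 < C := by linarith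
  refine TopologicalSpace.ext_nhds fun x => ?_
  ext U
  rw [@Metric.mem_nhds_iff Bd m.toPseudoMetricSpace]
  constructor
  · rintro ⟨ε, hε, hU⟩
    obtain ⟨n, hn⟩ := exists_pow_lt_of_lt_one (div_pos hε hC0) ha1
    refine mem_of_superset ((isOpen_cyl x n).mem_nhds fun i _ => rfl) fun y hy => hU ?_
    change m.dist y x < ε
    by_cases h : y = x
    · rw [h, m.dist_self]
      exact hε
    · have h1 : n ≤ PiNat.firstDiff y.1 x.1 := by
        by_contra hc
        rw [not_le] at hc
        exact PiNat.apply_firstDiff_ne (fun hh => h (Subtype.ext hh)) (hy _ hc)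
      have h2 := (hm y x h).2
      rw [rpow_neg_gromov ha h] at h2
      have h3 := (pow_le_pow_of_le_one ha0.le ha1.le h1).trans_lt hn
      rw [lt_div_iff₀ hC0] at h3
      linarith
  · intro hU
    obtain ⟨n, hn⟩ := exists_cyl x U hU
    refine ⟨C⁻¹ * (a⁻¹) ^ n, by positivity, fun y hy => hn ?_⟩
    have hy' : m.dist y x < C⁻¹ * (a⁻¹) ^ n := hy
    intro i hi
    by_cases h : y = x
    · rw [h]
    · have h2 := (hm y x h).1
      rw [rpow_neg_gromov ha h] at h2
      have h1 : n ≤ PiNat.firstDiff y.1 x.1 := by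
        by_contra hc
        rw [not_le] at hc
        have h4 := pow_le_pow_of_le_one ha0.le ha1.le hc.le
        have h5 : C⁻¹ * (a⁻¹) ^ n ≤ C⁻¹ * (a⁻¹) ^ PiNat.firstDiff y.1 x.1 :=
          mul_le_mul_of_nonneg_left h4 (by positivity)
        linarith
      exact PiNat.apply_eq_of_lt_firstDiff (lt_of_lt_of_le hi h1)

/-- the boundary of `⟨a, b⟩` has positive Hausdorff dimension with respect to every visual metric -/
theorem dimH_pos (a : ℝ) (ha : 1 < a) (m : MetricSpace Bd) (hm : IsVisual a m) :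
    0 < @dimH Bd (@MetricSpace.toEMetricSpace Bd m) S := by
  let _ := m
  obtain ⟨C, hC, hm⟩ := hm
  have hC0 : 0 < C := by linarith
  have hla : 0 < Real.log a := Real.log_pos ha
  have hr : 0 < Real.log 2 / Real.log a := div_pos (Real.log_pos (by norm_num)) hla
  set r : NNReal := ⟨Real.log 2 / Real.log a, hr.le⟩ with hrdef
  have hr0 : 0 < r := hr
  set D : NNReal := ⟨C ^ (Real.log 2 / Real.log a), by positivity⟩ with hD
  have hH : HolderOnWith D r num S := by
    intro x _ y _
    by_cases hxy : x = y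
    · subst hxy
      simp
    · have ha0 : 0 < a⁻¹ := by positivity
      have hd0 : 0 < dist x y := dist_pos.2 hxy
      have e1 : edist x y = ENNReal.ofReal (dist x y) := edist_dist x y
      have e2 : (D : ENNReal) = ENNReal.ofReal (C ^ (Real.log 2 / Real.log a)) := by
        rw [ENNReal.ofReal_eq_coe_nnreal (by positivity)]
        rfl
      rw [e1, e2, edist_dist, Real.dist_eq, ENNReal.ofReal_rpow_of_pos hd0, ← ENNReal.ofReal_mul (by positivity)]
      refine ENNReal.ofReal_le_ofReal ?_
      refine (num_sub x y).trans ?_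
      rw [← rpow_key a ha]
      change _ ≤ C ^ (Real.log 2 / Real.log a) * dist x y ^ (Real.log 2 / Real.log a)
      rw [← Real.mul_rpow hC0.le hd0.le]
      refine Real.rpow_le_rpow (by positivity) ?_ hr.le
      have h3 := (hm x y hxy).1
      rw [rpow_neg_gromov ha hxy] at h3
      have h4 : (a⁻¹) ^ PiNat.firstDiff x.1 y.1 = C * (C⁻¹ * (a⁻¹) ^ PiNat.firstDiff x.1 y.1) := by
        field_simp
      rw [h4]
      exact mul_le_mul_of_nonneg_left h3 hC0.le
  have h1 := hH.dimH_image_le hr0
  have h2 : dimH (num '' S) = 1 := by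
    have h3 : (interior (num '' S)).Nonempty := by
      refine ⟨1 / 2, ?_⟩
      rw [mem_interior_iff_mem_nhds]
      refine mem_of_superset (Ico_mem_nhds (by norm_num) (by norm_num)) num_image
    rw [Real.dimH_of_nonempty_interior h3]
    simp
  rw [h2] at h1
  by_contra hcon
  rw [not_lt, nonpos_iff_eq_zero] at hcon
  rw [hcon, ENNReal.zero_div] at h1
  simp at h1

theorem vtx_succ (x : Bd) (n : ℕ) : vtx x (n + 1) = vtx x n * FreeGroup.mk [x.1 n] := by
  unfold vtx
  rw [pfx_add, FreeGroup.mul_mk]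
  rfl

theorem norm_letter (s : Letter) : (FreeGroup.mk [s] : FreeGroup (Fin 3)).norm = 1 :=
  norm_mk_red FreeGroup.IsReduced.singleton

theorem letter_mul_bar (s : Letter) : (FreeGroup.mk [s] : FreeGroup (Fin 3)) * FreeGroup.mk [bar s] = 1 := by
  have : (FreeGroup.mk [bar s] : FreeGroup (Fin 3)) = (FreeGroup.mk [s])⁻¹ := by
    rw [FreeGroup.inv_mk]
    rfl
  rw [this, mul_inv_cancel]

theorem ray_perm (s : Letter) (x : Bd) (n : ℕ) :
    ((FreeGroup.mk [s] * vtx x n)⁻¹ * vtx (perm s x) n).norm ≤ 1 := by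
  by_cases hx : x.1 0 = bar s
  · have e0 : (perm s x).1 = tl x.1 := if_pos hx
    cases n with
    | zero =>
      have e1 : vtx x 0 = 1 := rfl
      have e2 : vtx (perm s x) 0 = 1 := rfl
      rw [e1, e2, mul_one, mul_one, FreeGroup.norm_inv_eq, norm_letter]
    | succ n =>
      have e1 : vtx x (n + 1) = FreeGroup.mk [bar s] * vtx (perm s x) n := by
        unfold vtx
        rw [pfx_succ, e0, hx, FreeGroup.mul_mk]
        rfl
      rw [e1, ← mul_assoc, letter_mul_bar, one_mul, vtx_succ, inv_mul_cancel_left, norm_letter]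
  · have e0 : (perm s x).1 = cn s x.1 := if_neg hx
    have e1 : FreeGroup.mk [s] * vtx x n = vtx (perm s x) (n + 1) := by
      unfold vtx
      rw [pfx_succ, e0, FreeGroup.mul_mk, cn_zero, tl_cn]
      rfl
    rw [e1, vtx_succ, mul_inv_rev, mul_assoc, inv_mul_cancel, mul_one, FreeGroup.norm_inv_eq, norm_letter]

/-- the action on the boundary is the extension of the left multiplication: the rays `g * vtx x n` and
`vtx (g • x) n` are at bounded distance -/
theorem ray_smul (g : FreeGroup (Fin 3)) : ∀ x : Bd,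
    ∃ C : ℕ, ∀ n, ((g * vtx x n)⁻¹ * vtx (g • x) n).norm ≤ C := by
  induction g using FreeGroup.induction_on with
  | C1 =>
    intro x
    refine ⟨0, fun n => ?_⟩
    rw [one_smul, one_mul, inv_mul_cancel, FreeGroup.norm_one]
  | of i => exact fun x => ⟨1, ray_perm (i, true) x⟩
  | inv_of i _ =>
    intro x
    refine ⟨1, fun n => ?_⟩
    have e1 : (FreeGroup.of i : FreeGroup (Fin 3))⁻¹ = FreeGroup.mk [(i, false)] := rfl
    have e2 : (FreeGroup.of i : FreeGroup (Fin 3))⁻¹ • x = perm (i, false) x := by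
      change (FreeGroup.lift fun i => perm (i, true)) (FreeGroup.of i)⁻¹ x = _
      rw [map_inv, FreeGroup.lift_apply_of, perm_inv]
      rfl
    rw [e2, e1]
    exact ray_perm (i, false) x n
  | mul g k hg hk =>
    intro x
    obtain ⟨C, hC⟩ := hk x
    obtain ⟨D, hD⟩ := hg (k • x)
    refine ⟨C + D, fun n => ?_⟩
    have e : (g * k * vtx x n)⁻¹ * vtx ((g * k) • x) n =
        ((k * vtx x n)⁻¹ * vtx (k • x) n) * ((g * vtx (k • x) n)⁻¹ * vtx (g • k • x) n) := by
      rw [mul_smul]
      group
    rw [e]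
    exact (FreeGroup.norm_mul_le _ _).trans (add_le_add (hC n) (hD n))

end Pool.Agent.Helper1K1.CT
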