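import Pool.Agent.Helper1K1.CT.Gromov

/-!
# The infinite reduced words are the geodesic rays from `1` in the Cayley tree
-/

set_option autoImplicit false

open Set Filter Topology

namespace Pool.Agent.Helper1K1.CT

/-- a geodesic ray from `1` in the free group with its word metric -/
def IsRay (γ : ℕ → FreeGroup (Fin 3)) : Prop :=
  γ 0 = 1 ∧ ∀ m n, m ≤ n → ((γ m)⁻¹ * γ n).norm = n - m

theorem isRay_vtx (x : Bd) : IsRay (vtx x) := by
  refine ⟨rfl, fun m n hmn => ?_⟩
  obtain ⟨k, rfl⟩ := Nat.exists_eq_add_of_le hmn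
  have e1 : vtx x (m + k) = vtx x m * FreeGroup.mk (pfx (fun i => x.1 (m + i)) k) := by
    unfold vtx
    rw [pfx_add, FreeGroup.mul_mk]
  rw [e1, inv_mul_cancel_left, norm_mk_red (red_pfx (good_shift x.2 m) k), pfx_length]
  omega

theorem vtx_injective : Function.Injective vtx := by
  intro x y h
  have h1 : ∀ n, pfx x.1 n = pfx y.1 n := by
    intro n
    have h2 := congrArg FreeGroup.toWord (congrFun h n)
    unfold vtx at h2
    rw [FreeGroup.toWord_mk, FreeGroup.toWord_mk, FreeGroup.IsReduced.reduce_eq (red_pfx x.2 n),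
      FreeGroup.IsReduced.reduce_eq (red_pfx y.2 n)] at h2
    exact h2
  refine Subtype.ext (funext fun n => ?_)
  have h3 := h1 (n + 1)
  unfold pfx at h3
  exact (List.map_inj_left.1 h3) n (List.mem_range.2 (Nat.lt_succ_self n))

theorem exists_letter {g : FreeGroup (Fin 3)} (h : g.norm = 1) : ∃ s : Letter, g = FreeGroup.mk [s] := by
  unfold FreeGroup.norm at h
  obtain ⟨s, hs⟩ := List.length_eq_one_iff.1 h
  exact ⟨s, by rw [← hs, FreeGroup.mk_toWord]⟩

/-- the boundary points are the geodesic rays from `1` -/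
theorem ray_iff (γ : ℕ → FreeGroup (Fin 3)) : IsRay γ ↔ ∃! x : Bd, vtx x = γ := by
  constructor
  · rintro ⟨h0, h1⟩
    have hs : ∀ n, ∃ s : Letter, (γ n)⁻¹ * γ (n + 1) = FreeGroup.mk [s] := fun n =>
      exists_letter (by rw [h1 n (n + 1) (by omega)]; omega)
    choose x hx using hs
    have hg : Good x := by
      intro n hn
      have h2 := h1 n (n + 2) (by omega)
      have e : (γ n)⁻¹ * γ (n + 2) = ((γ n)⁻¹ * γ (n + 1)) * ((γ (n + 1))⁻¹ * γ (n + 1 + 1)) := by group
      rw [e, hx n, hx (n + 1), hn, letter_mul_bar, FreeGroup.norm_one] at h2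
      omega
    obtain ⟨X, hX⟩ : ∃ X : Bd, X.1 = x := ⟨⟨x, hg⟩, rfl⟩
    have hv : vtx X = γ := by
      funext n
      induction n with
      | zero => exact h0.symm
      | succ n ih =>
        rw [vtx_succ, ih, hX, ← hx n, mul_inv_cancel_left]
    exact ⟨X, hv, fun y hy => vtx_injective (hy.trans hv.symm)⟩
  · rintro ⟨x, rfl, -⟩
    exact isRay_vtx x

end Pool.Agent.Helper1K1.CT
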