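import Mathlib

/-!
# The free group of rank 3 acting on its boundary: infinite reduced words
-/

set_option autoImplicit false

namespace Pool.Agent.Helper1K1.CT

/-- letters: `(i, true)` is the `i`-th generator, `(i, false)` its inverse -/
abbrev Letter : Type := Fin 3 × Bool

/-- the inverse letter -/
def bar (s : Letter) : Letter := (s.1, !s.2)

theorem bar_bar (s : Letter) : bar (bar s) = s := by
  unfold bar; simp

theorem bar_ne (s : Letter) : bar s ≠ s := by
  intro h
  have := congrArg Prod.snd h
  simp [bar] at this

/-- no letter is followed by its inverse -/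
def Good (x : ℕ → Letter) : Prop := ∀ n, x (n + 1) ≠ bar (x n)

/-- the boundary of the free group of rank 3: the infinite reduced words -/
def Bd : Type := {x : ℕ → Letter // Good x}

/-- delete the first letter -/
def tl (x : ℕ → Letter) : ℕ → Letter := fun n => x (n + 1)

/-- put a letter in front -/
def cn (s : Letter) (x : ℕ → Letter) : ℕ → Letter := fun n => Nat.casesOn n s x

/-- multiply by a letter (and reduce) -/
def act (s : Letter) (x : ℕ → Letter) : ℕ → Letter := if x 0 = bar s then tl x else cn s x

theorem cn_zero (s : Letter) (x : ℕ → Letter) : cn s x 0 = s := rfl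

theorem cn_succ (s : Letter) (x : ℕ → Letter) (n : ℕ) : cn s x (n + 1) = x n := rfl

theorem tl_cn (s : Letter) (x : ℕ → Letter) : tl (cn s x) = x := rfl

theorem cn_tl (x : ℕ → Letter) : cn (x 0) (tl x) = x := by
  funext n
  cases n <;> rfl

theorem Good.tl {x : ℕ → Letter} (h : Good x) : Good (tl x) := fun n => h (n + 1)

theorem good_cn {s : Letter} {x : ℕ → Letter} (h : Good x) (h0 : x 0 ≠ bar s) : Good (cn s x) := by
  intro n
  cases n with
  | zero => exact h0
  | succ n => exact h n

theorem Good.act {x : ℕ → Letter} (h : Good x) (s : Letter) : Good (act s x) := by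
  unfold CT.act
  split_ifs with h0
  · exact h.tl
  · exact good_cn h h0

theorem act_bar {x : ℕ → Letter} (h : Good x) (s : Letter) : act (bar s) (act s x) = x := by
  by_cases h0 : x 0 = bar s
  · have h1 : act s x = tl x := if_pos h0
    rw [h1]
    have h2 : tl x 0 ≠ bar (bar s) := by
      rw [← h0]
      exact h 0
    have h3 : act (bar s) (tl x) = cn (bar s) (tl x) := if_neg h2
    rw [h3, ← h0, cn_tl]
  · have h1 : act s x = cn s x := if_neg h0
    rw [h1]
    have h2 : cn s x 0 = bar (bar s) := by rw [cn_zero, bar_bar]
    have h3 : act (bar s) (cn s x) = tl (cn s x) := if_pos h2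
    rw [h3, tl_cn]

/-- the permutation of the boundary given by a letter -/
def perm (s : Letter) : Equiv.Perm Bd where
  toFun x := ⟨act s x.1, x.2.act s⟩
  invFun x := ⟨act (bar s) x.1, x.2.act (bar s)⟩
  left_inv x := Subtype.ext (act_bar x.2 s)
  right_inv x := Subtype.ext (by
    have := act_bar x.2 (bar s)
    rwa [bar_bar] at this)

/-- the action of the free group on its boundary (left multiplication) -/
instance : MulAction (FreeGroup (Fin 3)) Bd :=
  MulAction.compHom Bd (FreeGroup.lift fun i => perm (i, true))

theorem perm_inv (s : Letter) : (perm s)⁻¹ = perm (bar s) := by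
  ext x
  rfl

/-- apply the letters of a finite word -/
def actW (w : List Letter) (x : ℕ → Letter) : ℕ → Letter := w.foldr act x

theorem smul_mk (w : List Letter) (x : Bd) : (FreeGroup.mk w • x : Bd).1 = actW w x.1 := by
  have h0 : ∀ (g : FreeGroup (Fin 3)) (y : Bd), g • y = (FreeGroup.lift fun i => perm (i, true)) g y := fun _ _ => rfl
  induction w with
  | nil => 
    rw [h0]
    simp [FreeGroup.lift_mk, actW]
  | cons s t ih =>
    rw [h0, FreeGroup.lift_mk, List.map_cons, List.prod_cons, Equiv.Perm.mul_apply]
    rw [h0, FreeGroup.lift_mk] at ih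
    have h1 : (bif s.2 then perm (s.1, true) else (perm (s.1, true))⁻¹) = perm s := by
      obtain ⟨i, b⟩ := s
      cases b
      · simp only [cond_false]
        rw [perm_inv]
        rfl
      · rfl
    rw [h1]
    change act s _ = act s (actW t x.1)
    rw [ih]

/-- `w` is a prefix of `x` -/
def Pre : List Letter → (ℕ → Letter) → Prop
  | [], _ => True
  | s :: t, x => x 0 = s ∧ Pre t (tl x)

theorem pre_iff (w : List Letter) (x : ℕ → Letter) : Pre w x ↔ ∀ i (h : i < w.length), x i = w[i] := by
  induction w generalizing x with
  | nil => simp [Pre]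
  | cons s t ih =>
    unfold Pre
    rw [ih]
    constructor
    · rintro ⟨h0, h1⟩ i hi
      cases i with
      | zero => exact h0
      | succ i => exact h1 i (by simpa using hi)
    · intro h
      exact ⟨h 0 (by simp), fun i hi => h (i + 1) (by simpa using hi)⟩

theorem pre_append (u v : List Letter) (x : ℕ → Letter) :
    Pre (u ++ v) x ↔ Pre u x ∧ Pre v (fun n => x (n + u.length)) := by
  induction u generalizing x with
  | nil => simp [Pre]
  | cons s t ih =>
    rw [List.cons_append]
    change (x 0 = s ∧ Pre (t ++ v) (tl x)) ↔ (x 0 = s ∧ Pre t (tl x)) ∧ _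
    rw [ih, and_assoc]
    have : (fun n => tl x (n + t.length)) = fun n => x (n + (s :: t).length) := by
      funext n
      unfold tl
      rw [List.length_cons, add_assoc, add_comm t.length 1]
    rw [this]

/-- the inverse word -/
abbrev iw (w : List Letter) : List Letter := FreeGroup.invRev w

theorem iw_cons (s : Letter) (t : List Letter) : iw (s :: t) = iw t ++ [bar s] := by
  unfold iw
  rw [FreeGroup.invRev_cons]
  rfl

theorem iw_length (w : List Letter) : (iw w).length = w.length := FreeGroup.invRev_length

/-- full cancellation -/
theorem actW_drop (t : List Letter) (x : ℕ → Letter) (h : Pre (iw t) x) :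
    actW t x = fun n => x (n + t.length) := by
  induction t with
  | nil => rfl
  | cons s t ih =>
    rw [iw_cons, pre_append] at h
    obtain ⟨h1, h2⟩ := h
    have h3 := ih h1
    have h4 : x (0 + t.length) = bar s := by
      have := h2.1
      rwa [iw_length] at this
    change act s (actW t x) = _
    rw [h3]
    unfold act
    rw [if_pos h4]
    change (fun n => x ((n + 1) + t.length)) = fun n => x (n + (t.length + 1))
    funext n
    have e : (n + 1) + t.length = n + (t.length + 1) := by omega
    rw [e]

/-- the reducedness of a finite word -/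
def Red (w : List Letter) : Prop := FreeGroup.IsReduced w

theorem red_cons {s r : Letter} {t : List Letter} : Red (s :: r :: t) ↔ r ≠ bar s ∧ Red (r :: t) := by
  unfold Red
  rw [FreeGroup.isReduced_cons_cons]
  refine and_congr_left fun _ => ?_
  obtain ⟨i, b⟩ := s
  obtain ⟨j, c⟩ := r
  unfold bar
  simp only [ne_eq, Prod.mk.injEq, not_and]
  constructor
  · intro h hj hc
    have := h hj.symm
    rw [this] at hc
    simp at hc
  · intro h hij
    have := h hij.symm
    cases b <;> cases c <;> simp_all

/-- partial cancellation: the first letter survives -/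
theorem actW_head (s : Letter) (t : List Letter) (x : ℕ → Letter) (hr : Red (s :: t)) (h : ¬ Pre (iw (s :: t)) x) :
    actW (s :: t) x 0 = s := by
  induction t generalizing s with
  | nil =>
    have h1 : ¬ x 0 = bar s := by
      intro h0
      apply h
      rw [iw_cons]
      exact ⟨h0, trivial⟩
    change act s x 0 = s
    unfold act
    rw [if_neg h1, cn_zero]
  | cons r t ih =>
    rw [red_cons] at hr
    change act s (actW (r :: t) x) 0 = s
    by_cases hp : Pre (iw (r :: t)) x
    · have h1 := actW_drop (r :: t) x hp
      have h2 : ¬ (fun n => x (n + (r :: t).length)) 0 = bar s := by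
        intro h0
        apply h
        rw [iw_cons, pre_append]
        refine ⟨hp, ?_, trivial⟩
        rw [iw_length]
        exact h0
      rw [h1]
      unfold act
      rw [if_neg h2, cn_zero]
    · have h1 := ih r hr.2 hp
      unfold act
      rw [h1, if_neg hr.1, cn_zero]

/-- the first part of the word survives -/
theorem actW_pre (u : List Letter) (s : Letter) (t : List Letter) (x : ℕ → Letter) (hr : Red (u ++ s :: t))
    (h : ¬ Pre (iw (s :: t)) x) : Pre u (actW (u ++ s :: t) x) ∧
      ∀ r u', u = r :: u' → actW (u ++ s :: t) x 0 = r := by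
  induction u with
  | nil => exact ⟨trivial, fun r u' h => by simp at h⟩
  | cons r u ih =>
    have key : ¬ actW (u ++ s :: t) x 0 = bar r := by
      cases u with
      | nil =>
        rw [List.nil_append]
        rw [List.cons_append, List.nil_append, red_cons] at hr
        rw [actW_head s t x hr.2 h]
        exact hr.1
      | cons r' u' =>
        rw [List.cons_append, List.cons_append, red_cons] at hr
        rw [(ih hr.2).2 r' u' rfl]
        exact hr.1
    have hr' : Red (u ++ s :: t) := by
      unfold Red FreeGroup.IsReduced at hr ⊢
      exact hr.tail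
    have e : actW (r :: u ++ s :: t) x = cn r (actW (u ++ s :: t) x) := by
      change act r (actW (u ++ s :: t) x) = _
      unfold act
      rw [if_neg key]
    rw [e]
    refine ⟨⟨rfl, (ih hr').1⟩, fun r'' u'' hh => ?_⟩
    rw [List.cons.injEq] at hh
    rw [← hh.1]
    rfl

end Pool.Agent.Helper1K1.CT
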