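import Pool.Agent.Helper1K1.CT.Bd

/-!
# The quotient of the boundary by the translates of the boundary of `⟨a, b⟩`
-/

set_option autoImplicit false

open Set Filter Topology

namespace Pool.Agent.Helper1K1.CT

/-- the finite words whose last letter is `c` or `c⁻¹` (where `c` is the third generator) -/
def EndC (w : List Letter) : Prop := ∃ (u : List Letter) (b : Bool), w = u ++ [((2 : Fin 3), b)]

/-- the walls -/
def Wall : Type := {w : List Letter // EndC w}

instance : Countable Wall := inferInstanceAs (Countable {w : List Letter // EndC w})

open scoped Classical in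
/-- on which side of the walls is a point -/
noncomputable def side (x : Bd) : Wall → Bool := fun w => decide (Pre w.1 x.1)

theorem side_eq_iff (x y : Bd) (w : Wall) : side x w = side y w ↔ (Pre w.1 x.1 ↔ Pre w.1 y.1) := by
  unfold side
  rw [decide_eq_decide]

theorem isOpen_pre (w : List Letter) : IsOpen {x : Bd | Pre w x.1} := by
  have : {x : Bd | Pre w x.1} = ⋂ i : Fin w.length, (fun y : Bd => y.1 i) ⁻¹' {w[i]} := by
    ext x
    rw [mem_ofPred_eq, pre_iff]
    simp only [mem_iInter, mem_preimage, mem_singleton_iff]
    exact ⟨fun h i => h i.1 i.2, fun h i hi => h ⟨i, hi⟩⟩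
  rw [this]
  exact isOpen_iInter_of_finite fun i => (isOpen_discrete _).preimage (continuous_letter i)

theorem isClosed_pre (w : List Letter) : IsClosed {x : Bd | Pre w x.1} := by
  have : {x : Bd | Pre w x.1} = ⋂ i : Fin w.length, (fun y : Bd => y.1 i) ⁻¹' {w[i]} := by
    ext x
    rw [mem_ofPred_eq, pre_iff]
    simp only [mem_iInter, mem_preimage, mem_singleton_iff]
    exact ⟨fun h i => h i.1 i.2, fun h i hi => h ⟨i, hi⟩⟩
  rw [this]
  exact isClosed_iInter fun i => (isClosed_discrete _).preimage (continuous_letter i)

theorem continuous_side : Continuous side := by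
  refine continuous_pi fun w => ?_
  have h1 : IsClopen {x : Bd | Pre w.1 x.1} := ⟨isClosed_pre w.1, isOpen_pre w.1⟩
  rw [continuous_discrete_rng]
  intro b
  cases b
  · have : (fun x : Bd => side x w) ⁻¹' {false} = {x : Bd | Pre w.1 x.1}ᶜ := by
      ext x
      simp [side]
    rw [this]
    exact h1.compl.isOpen
  · have : (fun x : Bd => side x w) ⁻¹' {true} = {x : Bd | Pre w.1 x.1} := by
      ext x
      simp [side]
    rw [this]
    exact h1.isOpen

/-- the quotient of the boundary which identifies two points if no wall separates them -/
def Z : Type := Set.range side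

instance : TopologicalSpace Z := inferInstanceAs (TopologicalSpace (Set.range side))

instance : T2Space Z := inferInstanceAs (T2Space (Set.range side))

instance : CompactSpace Z := isCompact_iff_compactSpace.1 (isCompact_range continuous_side)

instance : SecondCountableTopology Z :=
  (Topology.IsEmbedding.subtypeVal (p := fun z => z ∈ Set.range side)).secondCountableTopology

/-- the projection -/
noncomputable def proj (x : Bd) : Z := ⟨side x, x, rfl⟩

theorem continuous_proj : Continuous proj := continuous_side.subtype_mk _

theorem surjective_proj : Function.Surjective proj := by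
  rintro ⟨_, x, rfl⟩
  exact ⟨x, rfl⟩

theorem isQuotientMap_proj : IsQuotientMap proj :=
  (continuous_proj.isClosedMap).isQuotientMap continuous_proj surjective_proj

theorem proj_eq_iff (x y : Bd) : proj x = proj y ↔ ∀ w, EndC w → (Pre w x.1 ↔ Pre w y.1) := by
  constructor
  · intro h w hw
    have : side x = side y := congrArg Subtype.val h
    exact (side_eq_iff x y ⟨w, hw⟩).1 (congrFun this ⟨w, hw⟩)
  · intro h
    refine Subtype.ext (funext fun w => ?_)
    exact (side_eq_iff x y w).2 (h w.1 w.2)

/-- the half spaces of the boundary bounded by walls -/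
def Half (P : Bd → Prop) : Prop := ∃ w, EndC w ∧ ((∀ x : Bd, P x ↔ Pre w x.1) ∨ ∀ x : Bd, P x ↔ ¬ Pre w x.1)

theorem Half.not {P : Bd → Prop} (h : Half P) : Half fun x => ¬ P x := by
  obtain ⟨w, hw, h | h⟩ := h
  · exact ⟨w, hw, Or.inr fun x => not_congr (h x)⟩
  · exact ⟨w, hw, Or.inl fun x => (not_congr (h x)).trans not_not⟩

theorem endC_tail {s r : Letter} {t : List Letter} (h : EndC (s :: r :: t)) : EndC (r :: t) := by
  obtain ⟨u, b, hu⟩ := h
  cases u with
  | nil => simp at hu
  | cons s' u' =>
    rw [List.cons_append, List.cons.injEq] at hu
    exact ⟨u', b, hu.2⟩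

theorem endC_cons {w : List Letter} (s : Letter) (h : EndC w) : EndC (s :: w) := by
  obtain ⟨u, b, hu⟩ := h
  exact ⟨s :: u, b, by rw [hu, List.cons_append]⟩

theorem endC_single {s : Letter} (h : EndC [s]) : EndC [bar s] := by
  obtain ⟨u, b, hu⟩ := h
  cases u with
  | nil =>
    rw [List.nil_append, List.cons.injEq] at hu
    rw [hu.1]
    exact ⟨[], !b, rfl⟩
  | cons s' u' => simp at hu

theorem act_zero_ne {x : Bd} {s : Letter} (h : x.1 0 = bar s) : act s x.1 0 ≠ s := by
  unfold act
  rw [if_pos h]
  have := x.2 0
  rw [h, bar_bar] at this
  exact this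

theorem half_perm_aux (s : Letter) (w : List Letter) (hw : EndC w) : Half fun x => Pre w (perm s x).1 := by
  cases w with
  | nil =>
    obtain ⟨u, b, hu⟩ := hw
    simp at hu
  | cons r t =>
    by_cases hrs : r = s
    · subst hrs
      cases t with
      | nil =>
        refine ⟨[bar r], endC_single hw, Or.inr fun x => ?_⟩
        change (act r x.1 0 = r ∧ True) ↔ ¬ (x.1 0 = bar r ∧ True)
        rw [and_true, and_true]
        constructor
        · intro h1 h2
          exact act_zero_ne h2 h1
        · intro h
          unfold act
          rw [if_neg h, cn_zero]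
      | cons t0 t' =>
        by_cases h0 : t0 = bar r
        · refine ⟨[(2, true), (2, false)], ⟨[(2, true)], false, rfl⟩, Or.inl fun x => ?_⟩
          constructor
          · rintro ⟨h1, h2⟩
            exfalso
            by_cases hx : x.1 0 = bar r
            · exact act_zero_ne hx h1
            · have : act r x.1 = cn r x.1 := if_neg hx
              change Pre (t0 :: t') (tl (act r x.1)) at h2
              rw [this, tl_cn] at h2
              exact hx (h2.1.trans h0)
          · rintro ⟨h1, h2, _⟩
            exfalso
            have := x.2 0
            rw [h1] at this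
            exact this h2
        · refine ⟨t0 :: t', endC_tail hw, Or.inl fun x => ?_⟩
          constructor
          · rintro ⟨h1, h2⟩
            by_cases hx : x.1 0 = bar r
            · exact absurd h1 (act_zero_ne hx)
            · have : act r x.1 = cn r x.1 := if_neg hx
              change Pre (t0 :: t') (tl (act r x.1)) at h2
              rwa [this, tl_cn] at h2
          · intro h
            have hx : ¬ x.1 0 = bar r := by
              intro h2
              exact h0 (h.1.symm.trans h2)
            have : act r x.1 = cn r x.1 := if_neg hx
            change Pre (r :: t0 :: t') (act r x.1)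
            rw [this]
            exact ⟨rfl, h⟩
    · refine ⟨bar s :: r :: t, endC_cons _ hw, Or.inl fun x => ?_⟩
      change Pre (r :: t) (act s x.1) ↔ (x.1 0 = bar s ∧ Pre (r :: t) (tl x.1))
      constructor
      · intro h
        by_cases hx : x.1 0 = bar s
        · have : act s x.1 = tl x.1 := if_pos hx
          rw [this] at h
          exact ⟨hx, h⟩
        · exfalso
          have h1 : act s x.1 0 = r := h.1
          unfold act at h1
          rw [if_neg hx, cn_zero] at h1
          exact hrs h1.symm
      · rintro ⟨hx, h⟩
        have : act s x.1 = tl x.1 := if_pos hx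
        rwa [this]

theorem half_perm (s : Letter) {P : Bd → Prop} (h : Half P) : Half fun x => P (perm s x) := by
  obtain ⟨w, hw, h | h⟩ := h
  · have h1 := half_perm_aux s w hw
    have : (fun x => P (perm s x)) = fun x => Pre w (perm s x).1 := by
      funext x
      exact propext (h _)
    rwa [this]
  · have h1 := (half_perm_aux s w hw).not
    have : (fun x => P (perm s x)) = fun x => ¬ Pre w (perm s x).1 := by
      funext x
      exact propext (h _)
    rwa [this]

theorem half_smul (g : FreeGroup (Fin 3)) {P : Bd → Prop} (h : Half P) : Half fun x => P (g • x) := by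
  induction g using FreeGroup.induction_on generalizing P with
  | C1 => simpa using h
  | of i => exact half_perm (i, true) h
  | inv_of i _ =>
    have : (fun x : Bd => P ((FreeGroup.of i : FreeGroup (Fin 3))⁻¹ • x)) = fun x => P (perm (i, false) x) := by
      funext x
      have : (FreeGroup.of i : FreeGroup (Fin 3))⁻¹ • x = perm (i, false) x := by
        change (FreeGroup.lift fun i => perm (i, true)) (FreeGroup.of i)⁻¹ x = _
        rw [map_inv, FreeGroup.lift_apply_of, perm_inv]
        rfl
      rw [this]
    rw [this]
    exact half_perm (i, false) h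
  | mul g k hg hk =>
    have h1 := hg h
    have h2 := hk h1
    have : (fun x : Bd => P ((g * k) • x)) = fun x => P (g • k • x) := by
      funext x
      rw [mul_smul]
    rwa [this]

theorem proj_smul_congr {x y : Bd} (h : proj x = proj y) (g : FreeGroup (Fin 3)) :
    proj (g • x) = proj (g • y) := by
  rw [proj_eq_iff] at h ⊢
  intro w hw
  have h1 : Half fun x => Pre w x.1 := ⟨w, hw, Or.inl fun x => Iff.rfl⟩
  obtain ⟨w', hw', h2 | h2⟩ := half_smul g h1
  · exact (h2 x).trans ((h w' hw').trans (h2 y).symm)
  · exact (h2 x).trans ((not_congr (h w' hw')).trans (h2 y).symm)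

/-- the action of the free group on the quotient -/
noncomputable instance : MulAction (FreeGroup (Fin 3)) Z where
  smul g z := proj (g • (surjective_proj z).choose)
  one_smul z := by
    change proj ((1 : FreeGroup (Fin 3)) • (surjective_proj z).choose) = z
    rw [one_smul]
    exact (surjective_proj z).choose_spec
  mul_smul g k z := by
    change proj ((g * k) • (surjective_proj z).choose) =
      proj (g • (surjective_proj (proj (k • (surjective_proj z).choose))).choose)
    rw [mul_smul]
    exact proj_smul_congr (surjective_proj (proj (k • (surjective_proj z).choose))).choose_spec.symm g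

/-- the projection is equivariant -/
theorem proj_smul (g : FreeGroup (Fin 3)) (x : Bd) : proj (g • x) = g • proj x :=
  proj_smul_congr (surjective_proj (proj x)).choose_spec.symm g

theorem continuous_smul_z (g : FreeGroup (Fin 3)) : Continuous fun z : Z => g • z := by
  rw [isQuotientMap_proj.continuous_iff]
  have : (fun z : Z => g • z) ∘ proj = proj ∘ fun x : Bd => g • x := by
    funext x
    exact (proj_smul g x).symm
  rw [this]
  exact continuous_proj.comp (continuous_smul_bd g)

end Pool.Agent.Helper1K1.CT
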